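import Pool.Agent.W425.GN.Defs

/-! Project GN: part F1, an embedding of the field of rational functions over `ℂ` into `ℂ`. -/

namespace Pool.Agent.W300.GN

open MvPolynomial Cardinal Pool.Agent.W425.GN

theorem f1 : TaskF1 := by
  intro r
  let K := FractionRing (MvPolynomial (Fin r) ℂ)
  let L := AlgebraicClosure K
  have hinjK : Function.Injective ((algebraMap (MvPolynomial (Fin r) ℂ) K).comp MvPolynomial.C) :=
    RingHom.injective _
  have : CharZero K :=
    charZero_of_injective_ringHom hinjK
  have hKL : Function.Injective (algebraMap K L) := RingHom.injective _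
  have : CharZero L := charZero_of_injective_ringHom hKL
  have hC : #ℂ = 𝔠 := Cardinal.mk_complex
  have h1 : #K ≤ 𝔠 := by
    rw [Cardinal.mk_fractionRing]
    refine MvPolynomial.cardinalMk_le_max.trans (max_le (max_le hC.le ?_) aleph0_le_continuum)
    exact (Cardinal.mk_le_aleph0).trans aleph0_le_continuum
  have h2 : #L ≤ 𝔠 :=
    (Algebra.IsAlgebraic.cardinalMk_le_max K L).trans (max_le h1 aleph0_le_continuum)
  have h3 : 𝔠 ≤ #L := by
    rw [← hC]
    exact Cardinal.mk_le_of_injective (hKL.comp hinjK)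
  have h4 : #L = #ℂ := by rw [hC]; exact le_antisymm h2 h3
  have h5 : ℵ₀ < #L := lt_of_lt_of_le aleph0_lt_continuum h3
  obtain ⟨e⟩ := IsAlgClosed.ringEquiv_of_equiv_of_charZero (K := L) (L := ℂ) h5
    (Cardinal.eq.1 h4)
  exact ⟨(e : L →+* ℂ).comp (algebraMap K L)⟩

end Pool.Agent.W300.GN
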